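import Pool.Agent.N724.UPPath

set_option autoImplicit false

/-!
# A uniformly pathwise connected continuum: long arcs
-/

namespace Pool.Agent.N724.UP

open Set Metric Filter Topology

/-- middle point of the first strand of the block `j` -/
lemma mid_mem {j : ℕ} (hj : 1 ≤ j) : Ek (2 ^ j + 3 / 2) ∈ K := by
  have h2 : (2 : ℝ) ≤ 2 ^ j := by
    calc (2 : ℝ) = 2 ^ 1 := by norm_num
      _ ≤ 2 ^ j := pow_le_pow_right₀ (by norm_num) hj
  apply Ek_mem (by linarith)
  rintro i ⟨h3, h4⟩
  -- 2^i < 2^j + 3/2 < 2^i + 1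
  have a1 : (2 ^ i : ℕ) < 2 ^ j + 2 := by
    have : (2 : ℝ) ^ i < 2 ^ j + 2 := by linarith
    exact_mod_cast this
  have a2 : (2 ^ j : ℕ) < 2 ^ i := by
    have : (2 : ℝ) ^ j < 2 ^ i := by linarith
    exact_mod_cast this
  have a3 : 2 ^ i = 2 ^ j + 1 := by omega
  have a4 : j < i := (Nat.pow_lt_pow_iff_right (by norm_num)).1 a2
  have a5 : 2 ^ (j + 1) ≤ 2 ^ i := Nat.pow_le_pow_right (by norm_num) a4
  have a6 : 2 ≤ 2 ^ j := by exact_mod_cast h2
  rw [pow_succ] at a5
  omega

/-- middle point of the first strand of the block `j` -/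
noncomputable def mid (j : ℕ) (hj : 1 ≤ j) : X := pt _ (mid_mem hj)

lemma block_mem {j : ℕ} {u : ℝ} (h1 : 2 ^ j + 1 ≤ u) (h2 : u ≤ 2 ^ (j + 1)) : Ek u ∈ K := by
  have hp : (1 : ℝ) ≤ 2 ^ j := one_le_pow₀ (by norm_num)
  apply Ek_mem (by linarith)
  rintro i ⟨h3, h4⟩
  have a1 : (2 : ℝ) ^ i < 2 ^ (j + 1) := by linarith
  have a2 : (2 : ℝ) ^ j < 2 ^ i := by linarith
  have a1' := (pow_lt_pow_iff_right₀ (by norm_num : (1 : ℝ) < 2)).1 a1
  have a2' := (pow_lt_pow_iff_right₀ (by norm_num : (1 : ℝ) < 2)).1 a2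
  omega

/-- clamp to the unit interval -/
noncomputable def cl (s : ℝ) : ℝ := max 0 (min s 1)

/-- height along the arc -/
noncomputable def ht (s : ℝ) : ℝ := max (-s) 0 - max (s - 1) 0

/-- the coordinates of the arc -/
noncomputable def arcK (j : ℕ) (s : ℝ) : E3 :=
  (1 / (2 ^ j + 1 + (2 ^ j - 1) * cl s), (1 + Real.cos (Real.pi * (2 ^ j + 1 + (2 ^ j - 1) * cl s))) / 2,
    ht s)

lemma cl_mem (s : ℝ) : cl s ∈ Icc (0 : ℝ) 1 := by
  unfold cl
  exact ⟨le_max_left _ _, max_le (by norm_num) (min_le_right _ _)⟩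

lemma cl_of_nonpos {s : ℝ} (h : s ≤ 0) : cl s = 0 := by
  unfold cl
  rw [max_eq_left]
  exact (min_le_left _ _).trans h

lemma cl_of_one_le {s : ℝ} (h : 1 ≤ s) : cl s = 1 := by
  unfold cl
  rw [min_eq_right h]; norm_num

lemma cl_of_mem {s : ℝ} (h0 : 0 ≤ s) (h : s ≤ 1) : cl s = s := by
  unfold cl
  rw [min_eq_left h, max_eq_right h0]

lemma ht_of_nonpos {s : ℝ} (h : s ≤ 0) : ht s = -s := by
  unfold ht
  rw [max_eq_left (by linarith), max_eq_right (by linarith)]; ring

lemma ht_of_one_le {s : ℝ} (h : 1 ≤ s) : ht s = 1 - s := by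
  unfold ht
  rw [max_eq_right (by linarith), max_eq_left (by linarith)]; ring

lemma ht_of_mem {s : ℝ} (h0 : 0 ≤ s) (h : s ≤ 1) : ht s = 0 := by
  unfold ht
  rw [max_eq_right (by linarith), max_eq_right (by linarith)]; ring

lemma pow_facts (j : ℕ) : (1 : ℝ) ≤ 2 ^ j := one_le_pow₀ (by norm_num)

lemma arcK_mem (j : ℕ) (s : ℝ) (h1 : -1 ≤ s) (h2 : s ≤ 2) : arcK j s ∈ K := by
  have hp := pow_facts j
  have hc := cl_mem s
  have hb : Ek (2 ^ j + 1 + (2 ^ j - 1) * cl s) ∈ K := by
    apply block_mem (j := j)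
    · nlinarith [hc.1]
    · rw [pow_succ]; nlinarith [hc.2]
  have hG : ((1 / (2 ^ j + 1 + (2 ^ j - 1) * cl s) : ℝ),
      (1 + Real.cos (Real.pi * (2 ^ j + 1 + (2 ^ j - 1) * cl s))) / 2) ∈ G := hb.1
  refine ⟨hG, ?_, ?_, ?_⟩
  · simp only [arcK]
    rcases le_total s 0 with h | h
    · rw [ht_of_nonpos h, abs_le]; constructor <;> linarith
    · rcases le_total s 1 with h' | h'
      · rw [ht_of_mem h h']; norm_num
      · rw [ht_of_one_le h', abs_le]; constructor <;> linarith
  · simp only [arcK]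
    rcases le_total s 0 with h | h
    · right
      rw [cl_of_nonpos h, mul_zero, add_zero]
      have e : Real.cos (Real.pi * (2 ^ j + 1)) = (-1) ^ (2 ^ j + 1) := by
        have := Real.cos_nat_mul_pi (2 ^ j + 1)
        push_cast at this
        rw [mul_comm]; exact this
      rw [e]
      rcases neg_one_pow_eq_or ℝ (2 ^ j + 1) with h | h <;> rw [h] <;> norm_num
    · left
      rcases le_total s 1 with h' | h'
      · rw [ht_of_mem h h']
      · rw [ht_of_one_le h']; linarith
  · simp only [arcK]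
    rcases le_total s 1 with h | h
    · left
      rcases le_total s 0 with h' | h'
      · rw [ht_of_nonpos h']; linarith
      · rw [ht_of_mem h' h]
    · right
      rw [cl_of_one_le h, mul_one]
      have e0 : (2 : ℝ) ^ j + 1 + (2 ^ j - 1) = 2 ^ (j + 1) := by rw [pow_succ]; ring
      rw [e0]
      constructor
      · have e : Real.cos (Real.pi * 2 ^ (j + 1)) = (-1) ^ (2 ^ (j + 1)) := by
          have := Real.cos_nat_mul_pi (2 ^ (j + 1))
          push_cast at this
          rw [mul_comm]; exact this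
        rw [e, Even.neg_one_pow (by rw [pow_succ]; exact even_two.mul_left _)]
        norm_num
      · right
        exact ⟨j, by simp only [one_div, inv_pow]⟩

lemma continuous_arc (j : ℕ) : Continuous fun s : ℝ => arcK j s := by
  have h1 : Continuous cl := by unfold cl; fun_prop
  have h2 : Continuous ht := by unfold ht; fun_prop
  have hp := pow_facts j
  have h3 : Continuous fun s : ℝ => 2 ^ j + 1 + (2 ^ j - 1) * cl s := by fun_prop
  have h4 : Continuous fun s : ℝ => 1 / (2 ^ j + 1 + (2 ^ j - 1) * cl s) := by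
    apply continuous_const.div h3
    intro s
    have hc := cl_mem s
    nlinarith [hc.1]
  have h5 : Continuous fun s : ℝ =>
      (1 + Real.cos (Real.pi * (2 ^ j + 1 + (2 ^ j - 1) * cl s))) / 2 := by
    have := Real.continuous_cos.comp (continuous_const.mul h3 (f := fun _ : ℝ => Real.pi))
    exact (continuous_const.add this).div_const 2
  exact h4.prodMk (h5.prodMk h2)

lemma arc_inj {j : ℕ} (hj : 1 ≤ j) {s t : ℝ} (h : Phi (arcK j s) = Phi (arcK j t)) : s = t := by
  have h2 : (2 : ℝ) ≤ 2 ^ j := by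
    calc (2 : ℝ) = 2 ^ 1 := by norm_num
      _ ≤ 2 ^ j := pow_le_pow_right₀ (by norm_num) hj
  simp only [Phi, arcK, Prod.mk.injEq] at h
  obtain ⟨ha, -, hz⟩ := h
  rcases lt_or_ge s 0 with hs | hs
  · rw [ht_of_nonpos hs.le] at hz
    rcases lt_or_ge t 0 with ht' | ht'
    · rw [ht_of_nonpos ht'.le] at hz; linarith
    · rcases le_or_gt t 1 with h1 | h1
      · rw [ht_of_mem ht' h1] at hz; linarith
      · rw [ht_of_one_le h1.le] at hz; linarith
  · rcases le_or_gt s 1 with hs1 | hs1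
    · rw [ht_of_mem hs hs1] at hz
      rcases lt_or_ge t 0 with ht' | ht'
      · rw [ht_of_nonpos ht'.le] at hz; linarith
      · rcases le_or_gt t 1 with h1 | h1
        · rw [ht_of_mem hs hs1, ht_of_mem ht' h1, cl_of_mem hs hs1, cl_of_mem ht' h1] at ha
          simp only [abs_zero, sub_zero, one_mul] at ha
          have p1 : (0 : ℝ) < 2 ^ j + 1 + (2 ^ j - 1) * s := by nlinarith
          have p2 : (0 : ℝ) < 2 ^ j + 1 + (2 ^ j - 1) * t := by nlinarith
          rw [div_eq_div_iff p1.ne' p2.ne'] at ha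
          have : (2 ^ j - 1 : ℝ) * s = (2 ^ j - 1) * t := by linarith
          exact mul_left_cancel₀ (by linarith : (2 ^ j - 1 : ℝ) ≠ 0) this
        · rw [ht_of_one_le h1.le] at hz; linarith
    · rw [ht_of_one_le hs1.le] at hz
      rcases lt_or_ge t 0 with ht' | ht'
      · rw [ht_of_nonpos ht'.le] at hz; linarith
      · rcases le_or_gt t 1 with h1 | h1
        · rw [ht_of_mem ht' h1] at hz; linarith
        · rw [ht_of_one_le h1.le] at hz; linarith

/-- the arc through the block `j` -/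
theorem exists_arc (j : ℕ) (hj : 1 ≤ j) :
    ∃ q : Path cPt bPt, Function.Injective q ∧ mid j hj ∈ range q := by
  have hmem : ∀ t : unitInterval, arcK j (3 * (t : ℝ) - 1) ∈ K := fun t =>
    arcK_mem j _ (by linarith [t.2.1]) (by linarith [t.2.2])
  have hcont : Continuous fun t : unitInterval => pt _ (hmem t) := by
    apply Continuous.subtype_mk
    exact continuous_Phi.comp ((continuous_arc j).comp (by fun_prop))
  refine ⟨⟨⟨fun t => pt _ (hmem t), hcont⟩, ?_, ?_⟩, ?_, ?_⟩
  · apply Subtype.ext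
    show Phi (arcK j (3 * ((0 : unitInterval) : ℝ) - 1)) = _
    have : ht (3 * ((0 : unitInterval) : ℝ) - 1) = 1 := by
      rw [Set.Icc.coe_zero, ht_of_nonpos (by norm_num)]; norm_num
    simp only [Phi, arcK, this, cPt]
    norm_num
  · apply Subtype.ext
    show Phi (arcK j (3 * ((1 : unitInterval) : ℝ) - 1)) = _
    have : ht (3 * ((1 : unitInterval) : ℝ) - 1) = -1 := by
      rw [Set.Icc.coe_one, ht_of_one_le (by norm_num)]; norm_num
    simp only [Phi, arcK, this, bPt]
    norm_num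
  · intro s t h
    have h' : Phi (arcK j (3 * (s : ℝ) - 1)) = Phi (arcK j (3 * (t : ℝ) - 1)) :=
      congrArg Subtype.val h
    have := arc_inj hj h'
    exact Subtype.ext (by linarith)
  · have h2 : (2 : ℝ) ≤ 2 ^ j := by
      calc (2 : ℝ) = 2 ^ 1 := by norm_num
        _ ≤ 2 ^ j := pow_le_pow_right₀ (by norm_num) hj
    set s : ℝ := 1 / (2 * (2 ^ j - 1)) with hs
    have hs0 : 0 ≤ s := by rw [hs]; apply div_nonneg <;> linarith
    have hs1 : s ≤ 1 := by
      rw [hs, div_le_one (by linarith)]; linarith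
    refine ⟨⟨(s + 1) / 3, by constructor <;> linarith⟩, ?_⟩
    apply Subtype.ext
    show Phi (arcK j (3 * ((s + 1) / 3) - 1)) = Phi (Ek (2 ^ j + 3 / 2))
    have e1 : 3 * ((s + 1) / 3) - 1 = s := by ring
    rw [e1, arcK, ht_of_mem hs0 hs1, cl_of_mem hs0 hs1]
    have e2 : (2 ^ j + 1 + (2 ^ j - 1) * s : ℝ) = 2 ^ j + 3 / 2 := by
      rw [hs]
      have : (2 ^ j - 1 : ℝ) ≠ 0 := by linarith
      field_simp
      ring
    rw [e2]
    rfl

end Pool.Agent.N724.UP
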