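import Mathlib

set_option autoImplicit false

/-!
# A uniformly pathwise connected continuum which is not uniformly arcwise connected: the space
-/

namespace Pool.Agent.N724.UP

open Set Metric Filter Topology

/-- three-space with the maximum metric -/
abbrev E3 := ℝ × ℝ × ℝ

/-- `x (1 + cos (π / x)) / 2` -/
noncomputable def F (x : ℝ) : ℝ := x * ((1 + Real.cos (Real.pi / x)) / 2)

lemma F_zero : F 0 = 0 := by simp [F]

lemma abs_F_le (x : ℝ) : |F x| ≤ |x| := by
  unfold F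
  rw [abs_mul]
  have h1 := Real.cos_le_one (Real.pi / x)
  have h2 := Real.neg_one_le_cos (Real.pi / x)
  have h3 : |(1 + Real.cos (Real.pi / x)) / 2| ≤ 1 := by
    rw [abs_le]; constructor <;> linarith
  calc |x| * |(1 + Real.cos (Real.pi / x)) / 2| ≤ |x| * 1 :=
        mul_le_mul_of_nonneg_left h3 (abs_nonneg _)
    _ = |x| := mul_one _

lemma continuous_F : Continuous F := by
  rw [continuous_iff_continuousAt]
  intro x
  by_cases hx : x = 0
  · subst hx
    have h : Tendsto F (𝓝 0) (𝓝 0) := by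
      apply squeeze_zero_norm (a := fun x : ℝ => |x|)
      · intro t
        rw [Real.norm_eq_abs]
        exact abs_F_le t
      · have := (continuous_abs : Continuous fun x : ℝ => |x|).tendsto 0
        simpa using this
    unfold ContinuousAt
    rw [F_zero]
    exact h
  · unfold F
    have h1 : ContinuousAt (fun x : ℝ => Real.pi / x) x :=
      continuousAt_const.div continuousAt_id hx
    have h2 : ContinuousAt (fun x : ℝ => Real.cos (Real.pi / x)) x :=
      Real.continuous_cos.continuousAt.comp h1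
    exact continuousAt_id.mul ((continuousAt_const.add h2).div_const 2)

/-- the points of the zigzags and of the limit segment -/
def G : Set (ℝ × ℝ) := {p | 0 ≤ p.1 ∧ p.1 ≤ 1 ∧ 0 ≤ p.2 ∧ p.2 ≤ 1 ∧ p.1 * p.2 = F p.1 ∧
  ∀ j : ℕ, ¬ (1 / ((2 : ℝ) ^ j + 1) < p.1 ∧ p.1 < 1 / (2 : ℝ) ^ j)}

/-- the abscissas of the last turning points -/
def LS : Set ℝ := insert 0 (range fun j : ℕ => (1 / 2 : ℝ) ^ (j + 1))

lemma isClosed_LS : IsClosed LS := by
  have h : Tendsto (fun j : ℕ => (1 / 2 : ℝ) ^ (j + 1)) atTop (𝓝 0) := by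
    have := tendsto_pow_atTop_nhds_zero_of_lt_one (r := (1 / 2 : ℝ)) (by norm_num) (by norm_num)
    exact this.comp (tendsto_add_atTop_nat 1)
  exact h.isCompact_insert_range.isClosed

/-- the coordinates of the points -/
def K : Set E3 := {k | (k.1, k.2.1) ∈ G ∧ |k.2.2| ≤ 1 ∧ (k.2.2 ≤ 0 ∨ k.2.1 = 0 ∨ k.2.1 = 1) ∧
  (0 ≤ k.2.2 ∨ (k.2.1 = 1 ∧ k.1 ∈ LS))}

/-- double cone coordinates -/
def Phi (k : E3) : E3 := ((1 - |k.2.2|) * k.1, (1 - |k.2.2|) * k.2.1, k.2.2)

lemma continuous_Phi : Continuous Phi := by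
  unfold Phi; fun_prop

lemma isClosed_G : IsClosed G := by
  have h1 : IsClosed {p : ℝ × ℝ | 0 ≤ p.1} := isClosed_le continuous_const continuous_fst
  have h2 : IsClosed {p : ℝ × ℝ | p.1 ≤ 1} := isClosed_le continuous_fst continuous_const
  have h3 : IsClosed {p : ℝ × ℝ | 0 ≤ p.2} := isClosed_le continuous_const continuous_snd
  have h4 : IsClosed {p : ℝ × ℝ | p.2 ≤ 1} := isClosed_le continuous_snd continuous_const
  have h5 : IsClosed {p : ℝ × ℝ | p.1 * p.2 = F p.1} :=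
    isClosed_eq (continuous_fst.mul continuous_snd) (continuous_F.comp continuous_fst)
  have h6 : IsClosed {p : ℝ × ℝ | ∀ j : ℕ, ¬ (1 / ((2 : ℝ) ^ j + 1) < p.1 ∧
      p.1 < 1 / (2 : ℝ) ^ j)} := by
    simp only [ofPred_forall]
    apply isClosed_iInter
    intro j
    have : {p : ℝ × ℝ | ¬ (1 / ((2 : ℝ) ^ j + 1) < p.1 ∧ p.1 < 1 / (2 : ℝ) ^ j)}
        = {p : ℝ × ℝ | 1 / ((2 : ℝ) ^ j + 1) < p.1 ∧ p.1 < 1 / (2 : ℝ) ^ j}ᶜ := rfl
    rw [this, isClosed_compl_iff]
    exact (isOpen_lt continuous_const continuous_fst).inter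
      (isOpen_lt continuous_fst continuous_const)
  exact h1.inter (h2.inter (h3.inter (h4.inter (h5.inter h6))))

lemma isClosed_K : IsClosed K := by
  have h1 : IsClosed {k : E3 | (k.1, k.2.1) ∈ G} :=
    isClosed_G.preimage (by fun_prop : Continuous fun k : E3 => (k.1, k.2.1))
  have h2 : IsClosed {k : E3 | |k.2.2| ≤ 1} := isClosed_le (by fun_prop) continuous_const
  have hz : Continuous fun k : E3 => k.2.2 := by fun_prop
  have hy : Continuous fun k : E3 => k.2.1 := by fun_prop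
  have hx : Continuous fun k : E3 => k.1 := by fun_prop
  have h3 : IsClosed {k : E3 | k.2.2 ≤ 0 ∨ k.2.1 = 0 ∨ k.2.1 = 1} := by
    rw [ofPred_or, ofPred_or]
    exact (isClosed_le hz continuous_const).union
      ((isClosed_eq hy continuous_const).union (isClosed_eq hy continuous_const))
  have h4 : IsClosed {k : E3 | 0 ≤ k.2.2 ∨ (k.2.1 = 1 ∧ k.1 ∈ LS)} := by
    rw [ofPred_or, ofPred_and]
    exact (isClosed_le continuous_const hz).union
      ((isClosed_eq hy continuous_const).inter (isClosed_LS.preimage hx))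
  exact h1.inter (h2.inter (h3.inter h4))

lemma isCompact_K : IsCompact K := by
  have hc : IsCompact (Icc (0 : ℝ) 1 ×ˢ (Icc (0 : ℝ) 1 ×ˢ Icc (-1 : ℝ) 1)) :=
    isCompact_Icc.prod (isCompact_Icc.prod isCompact_Icc)
  refine hc.of_isClosed_subset isClosed_K ?_
  rintro ⟨x, y, z⟩ ⟨⟨h1, h2, h3, h4, -⟩, h5, -⟩
  exact ⟨⟨h1, h2⟩, ⟨h3, h4⟩, abs_le.1 h5⟩

/-- the continuum -/
def S : Set E3 := Phi '' K

lemma isCompact_S : IsCompact S := isCompact_K.image continuous_Phi

/-- the continuum as a type -/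
abbrev X := {v : E3 // v ∈ S}

instance : CompactSpace X := isCompact_iff_compactSpace.1 isCompact_S

lemma G_half : ((1 / 2 : ℝ), (1 : ℝ)) ∈ G := by
  refine ⟨by norm_num, by norm_num, by norm_num, le_rfl, ?_, ?_⟩
  · simp only [F]
    have : Real.pi / (1 / 2) = 2 * Real.pi := by ring
    rw [this, Real.cos_two_pi]; norm_num
  · rintro j ⟨h1, h2⟩
    have hp : (0 : ℝ) < 2 ^ j := by positivity
    simp only at h1 h2
    rw [div_lt_div_iff₀ (by positivity) (by norm_num)] at h1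
    rw [div_lt_div_iff₀ (by norm_num) (by positivity)] at h2
    -- 2 < 2^j + 1 and 2 ^ j < 2
    have a1 : (1 : ℝ) < 2 ^ j := by linarith
    have a2 : (2 : ℝ) ^ j < 2 := by linarith
    have b1 : 1 < 2 ^ j := by exact_mod_cast a1
    have b2 : 2 ^ j < 2 := by exact_mod_cast a2
    omega

lemma half_mem_LS : (1 / 2 : ℝ) ∈ LS := Or.inr ⟨0, by norm_num⟩

lemma cPt_mem : ((0 : ℝ), (0 : ℝ), (1 : ℝ)) ∈ S :=
  ⟨(1 / 2, 1, 1), ⟨G_half, by norm_num, Or.inr (Or.inr rfl), Or.inl (by norm_num)⟩, by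
    simp [Phi]⟩

lemma bPt_mem : ((0 : ℝ), (0 : ℝ), (-1 : ℝ)) ∈ S :=
  ⟨(1 / 2, 1, -1), ⟨G_half, by norm_num, Or.inl (by norm_num), Or.inr ⟨rfl, half_mem_LS⟩⟩, by
    simp [Phi]⟩

/-- the upper vertex -/
def cPt : X := ⟨(0, 0, 1), cPt_mem⟩

/-- the lower vertex -/
def bPt : X := ⟨(0, 0, -1), bPt_mem⟩

/-- connected by a Lipschitz path -/
def R (C : ℝ) (u v : X) : Prop :=
  ∃ p : Path u v, ∀ s t : unitInterval, dist (p s) (p t) ≤ C * |(s : ℝ) - t|

lemma R.mono {C D : ℝ} {u v : X} (h : R C u v) (hCD : C ≤ D) : R D u v := by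
  obtain ⟨p, hp⟩ := h
  exact ⟨p, fun s t => (hp s t).trans (mul_le_mul_of_nonneg_right hCD (abs_nonneg _))⟩

lemma R.symm {C : ℝ} {u v : X} (h : R C u v) : R C v u := by
  obtain ⟨p, hp⟩ := h
  refine ⟨p.symm, fun s t => ?_⟩
  have := hp (unitInterval.symm s) (unitInterval.symm t)
  simp only [Path.symm_apply]
  refine this.trans (le_of_eq ?_)
  congr 1
  rw [unitInterval.coe_symm_eq, unitInterval.coe_symm_eq, ← abs_neg]
  congr 1; ring

lemma R_of_fun {C : ℝ} {u v : X} (f : ℝ → E3)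
    (hf : ∀ s ∈ Icc (0 : ℝ) 1, ∀ t ∈ Icc (0 : ℝ) 1, dist (f s) (f t) ≤ C * |s - t|)
    (hS : ∀ s ∈ Icc (0 : ℝ) 1, f s ∈ S) (h0 : f 0 = u.1) (h1 : f 1 = v.1) : R C u v := by
  have hcont : Continuous fun s : unitInterval => (⟨f s, hS s s.2⟩ : X) := by
    rw [Metric.continuous_iff]
    intro b ε hε
    refine ⟨ε / (|C| + 1), by positivity, fun a ha => ?_⟩
    have h2 := hf a a.2 b b.2
    have h3 : dist (⟨f a, hS a a.2⟩ : X) ⟨f b, hS b b.2⟩ = dist (f a) (f b) := rfl
    rw [h3]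
    have h4 : |(a : ℝ) - b| < ε / (|C| + 1) := by
      have : dist a b = |(a : ℝ) - b| := rfl
      rw [← this]; exact ha
    have h5 : C * |(a : ℝ) - b| ≤ (|C| + 1) * |(a : ℝ) - b| :=
      mul_le_mul_of_nonneg_right (by linarith [le_abs_self C]) (abs_nonneg _)
    have h6 : (|C| + 1) * |(a : ℝ) - b| < ε := by
      rw [lt_div_iff₀ (by positivity)] at h4
      linarith
    linarith
  refine ⟨⟨⟨fun s => ⟨f s, hS s s.2⟩, hcont⟩, ?_, ?_⟩, ?_⟩
  · exact Subtype.ext (by simpa using h0)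
  · exact Subtype.ext (by simpa using h1)
  · intro s t
    exact hf s s.2 t t.2

end Pool.Agent.N724.UP
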