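import Pool.Agent.N724.UPArc

set_option autoImplicit false

/-!
# A uniformly pathwise connected continuum: every arc through the block is long
-/

namespace Pool.Agent.N724.UP

open Set Metric Filter Topology

/-- the path in three-space -/
noncomputable def g (p : Path cPt bPt) (t : ℝ) : E3 := (p (projIcc 0 1 zero_le_one t)).1

lemma continuous_g (p : Path cPt bPt) : Continuous (g p) := by
  unfold g
  exact continuous_subtype_val.comp (p.continuous.comp continuous_projIcc)

lemma g_mem (p : Path cPt bPt) (t : ℝ) : g p t ∈ S := (p _).2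

lemma g_coe (p : Path cPt bPt) (t : unitInterval) : g p t = (p t).1 := by
  unfold g
  rw [projIcc_val]

/-- first coordinate of the projection -/
noncomputable def xi (p : Path cPt bPt) (t : ℝ) : ℝ := (g p t).1 / (1 - |(g p t).2.2|)

/-- second coordinate of the projection -/
noncomputable def eta (p : Path cPt bPt) (t : ℝ) : ℝ := (g p t).2.1 / (1 - |(g p t).2.2|)

lemma coords {v : E3} (hv : v ∈ S) (hz : |v.2.2| < 1) :
    (v.1 / (1 - |v.2.2|), v.2.1 / (1 - |v.2.2|), v.2.2) ∈ K := by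
  obtain ⟨⟨x, y, z⟩, hk, rfl⟩ := hv
  simp only [Phi] at hz ⊢
  have h : (1 - |z|) ≠ 0 := by linarith
  rw [mul_div_cancel_left₀ _ h, mul_div_cancel_left₀ _ h]
  exact hk

lemma abs_z_lt {p : Path cPt bPt} (hp : Function.Injective p) {t : ℝ} (h0 : 0 < t) (h1 : t < 1) :
    |(g p t).2.2| < 1 := by
  obtain ⟨⟨x, y, z⟩, hk, he⟩ := g_mem p t
  have hz : (g p t).2.2 = z := by rw [← he]; rfl
  have hz1 : |z| ≤ 1 := hk.2.1
  rw [hz]
  refine lt_of_le_of_ne hz1 fun habs => ?_
  have hg : g p t = (0, 0, z) := by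
    rw [← he]; simp [Phi, habs]
  have ht : g p t = (p ⟨t, h0.le, h1.le⟩).1 := g_coe p ⟨t, h0.le, h1.le⟩
  rcases (abs_eq zero_le_one).1 habs with h | h
  · have : p ⟨t, h0.le, h1.le⟩ = p 0 := by
      rw [p.source]; apply Subtype.ext; rw [← ht, hg, h]; rfl
    have := congrArg Subtype.val (hp this)
    simp only [Set.Icc.coe_zero] at this
    linarith
  · have : p ⟨t, h0.le, h1.le⟩ = p 1 := by
      rw [p.target]; apply Subtype.ext; rw [← ht, hg, h]; rfl
    have := congrArg Subtype.val (hp this)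
    simp only [Set.Icc.coe_one] at this
    linarith

lemma memK {p : Path cPt bPt} (hp : Function.Injective p) {t : ℝ} (h0 : 0 < t) (h1 : t < 1) :
    (xi p t, eta p t, (g p t).2.2) ∈ K := coords (g_mem p t) (abs_z_lt hp h0 h1)

lemma continuousOn_xi {p : Path cPt bPt} (hp : Function.Injective p) :
    ContinuousOn (xi p) (Ioo 0 1) := by
  have hg := continuous_g p
  unfold xi
  apply ContinuousOn.div
  · exact (continuous_fst.comp hg).continuousOn
  · exact (continuous_const.sub (continuous_abs.comp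
      (continuous_snd.comp (continuous_snd.comp hg)))).continuousOn
  · intro t ht
    have := abs_z_lt hp ht.1 ht.2
    linarith

/-- no value in a gap -/
lemma no_gap {p : Path cPt bPt} (hp : Function.Injective p) {t : ℝ} (h0 : 0 < t) (h1 : t < 1)
    (j : ℕ) : ¬ (1 / ((2 : ℝ) ^ j + 1) < xi p t ∧ xi p t < 1 / (2 : ℝ) ^ j) :=
  (memK hp h0 h1).1.2.2.2.2.2 j

lemma ioo_of_uIcc {a b t : ℝ} (ha0 : 0 < a) (ha1 : a < 1) (hb0 : 0 < b) (hb1 : b < 1)
    (ht : t ∈ uIcc a b) : 0 < t ∧ t < 1 := by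
  rw [mem_uIcc] at ht
  rcases ht with h | h
  · exact ⟨lt_of_lt_of_le ha0 h.1, lt_of_le_of_lt h.2 hb1⟩
  · exact ⟨lt_of_lt_of_le hb0 h.1, lt_of_le_of_lt h.2 ha1⟩

lemma ivt {p : Path cPt bPt} (hp : Function.Injective p) {a b c : ℝ} (ha0 : 0 < a) (ha1 : a < 1)
    (hb0 : 0 < b) (hb1 : b < 1) (hc : c ∈ uIcc (xi p a) (xi p b)) :
    ∃ t ∈ uIcc a b, xi p t = c := by
  have h := intermediate_value_uIcc ((continuousOn_xi hp).mono
    (fun t ht => (ioo_of_uIcc ha0 ha1 hb0 hb1 ht : 0 < t ∧ t < 1)))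
  obtain ⟨t, ht, e⟩ := h hc
  exact ⟨t, ht, e⟩

/-- the path stays in the block -/
lemma stays {p : Path cPt bPt} (hp : Function.Injective p) {j : ℕ} (hj : 1 ≤ j) {τ : ℝ}
    (h0 : 0 < τ) (h1 : τ < 1) (hτ : xi p τ = 1 / (2 ^ j + 3 / 2)) {t : ℝ} (ht0 : 0 < t)
    (ht1 : t < 1) : 1 / 2 ^ (j + 1) ≤ xi p t ∧ xi p t ≤ 1 / (2 ^ j + 1) := by
  have h2 : (2 : ℝ) ≤ 2 ^ j := by
    calc (2 : ℝ) = 2 ^ 1 := by norm_num
      _ ≤ 2 ^ j := pow_le_pow_right₀ (by norm_num) hj
  have hps : (2 : ℝ) ^ (j + 1) = 2 * 2 ^ j := by rw [pow_succ]; ring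
  constructor
  · by_contra hlt
    push Not at hlt
    -- not in the gap with index j + 1
    have hg := no_gap hp ht0 ht1 (j + 1)
    have hle : xi p t ≤ 1 / ((2 : ℝ) ^ (j + 1) + 1) := by
      by_contra h; push Not at h; exact hg ⟨h, hlt⟩
    obtain ⟨s, hs, hse⟩ := ivt hp ht0 ht1 h0 h1 (c := 1 / ((2 : ℝ) ^ (j + 1) + 1 / 2)) (by
      rw [mem_uIcc]
      left
      constructor
      · refine hle.trans ?_
        apply one_div_le_one_div_of_le <;> linarith
      · rw [hτ]
        apply one_div_le_one_div_of_le <;> linarith)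
    obtain ⟨hs0, hs1⟩ := ioo_of_uIcc ht0 ht1 h0 h1 hs
    apply no_gap hp hs0 hs1 (j + 1)
    rw [hse]
    constructor
    · apply one_div_lt_one_div_of_lt <;> linarith
    · apply one_div_lt_one_div_of_lt <;> linarith
  · by_contra hlt
    push Not at hlt
    have hg := no_gap hp ht0 ht1 j
    have hle : 1 / (2 : ℝ) ^ j ≤ xi p t := by
      by_contra h; push Not at h; exact hg ⟨hlt, h⟩
    obtain ⟨s, hs, hse⟩ := ivt hp ht0 ht1 h0 h1 (c := 1 / ((2 : ℝ) ^ j + 1 / 2)) (by
      rw [mem_uIcc]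
      right
      constructor
      · rw [hτ]
        apply one_div_le_one_div_of_le <;> linarith
      · refine le_trans ?_ hle
        apply one_div_le_one_div_of_le <;> linarith)
    obtain ⟨hs0, hs1⟩ := ioo_of_uIcc ht0 ht1 h0 h1 hs
    apply no_gap hp hs0 hs1 j
    rw [hse]
    constructor
    · apply one_div_lt_one_div_of_lt <;> linarith
    · apply one_div_lt_one_div_of_lt <;> linarith

/-- close to the end the path is at the last turning point -/
lemma last {p : Path cPt bPt} (hp : Function.Injective p) {j : ℕ} (hj : 1 ≤ j) {τ : ℝ}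
    (h0 : 0 < τ) (h1 : τ < 1) (hτ : xi p τ = 1 / (2 ^ j + 3 / 2)) :
    ∃ t, τ < t ∧ t < 1 ∧ xi p t = 1 / 2 ^ (j + 1) := by
  have hz1 : (g p 1).2.2 = -1 := by
    have := g_coe p 1
    rw [Set.Icc.coe_one, p.target] at this
    rw [this]; rfl
  have hc : Continuous fun t => (g p t).2.2 :=
    continuous_snd.comp (continuous_snd.comp (continuous_g p))
  have hev : ∀ᶠ t in 𝓝[<] (1 : ℝ), (g p t).2.2 < 0 := by
    have : ∀ᶠ t in 𝓝 (1 : ℝ), (g p t).2.2 < 0 :=
      hc.continuousAt.eventually_lt continuousAt_const (by rw [hz1]; norm_num)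
    exact this.filter_mono nhdsWithin_le_nhds
  have hev2 : ∀ᶠ t in 𝓝[<] (1 : ℝ), t ∈ Ioo τ 1 := Ioo_mem_nhdsLT h1
  obtain ⟨t, ht, ht2⟩ := (hev.and hev2).exists
  refine ⟨t, ht2.1, ht2.2, ?_⟩
  have ht0 : 0 < t := h0.trans ht2.1
  have hk := memK hp ht0 ht2.2
  have hst := stays hp hj h0 h1 hτ ht0 ht2.2
  rcases hk.2.2.2 with h | h
  · simp only at h; linarith
  · rcases h.2 with h' | ⟨i, h'⟩
    · simp only at h'
      have : (0 : ℝ) < 1 / 2 ^ (j + 1) := by positivity
      linarith [hst.1]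
    · simp only [one_div, inv_pow] at h'
      rw [← h'] at hst ⊢
      have e1 : (2 : ℝ) ^ (i + 1) ≤ 2 ^ (j + 1) := by
        have := hst.1
        rw [one_div] at this
        exact (inv_le_inv₀ (by positivity) (by positivity)).1 this
      have e2 : (2 : ℝ) ^ j + 1 ≤ 2 ^ (i + 1) := by
        have := hst.2
        rw [one_div] at this
        exact (inv_le_inv₀ (by positivity) (by positivity)).1 this
      have e1' := (pow_le_pow_iff_right₀ (by norm_num : (1 : ℝ) < 2)).1 e1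
      have e2' := (pow_lt_pow_iff_right₀ (by norm_num : (1 : ℝ) < 2)).1
        (lt_of_lt_of_le (lt_add_one _) e2)
      have : i = j := by omega
      rw [this, one_div]

/-- the second coordinate at the points with parameter `k + 1 / 3` -/
lemma at_third {p : Path cPt bPt} (hp : Function.Injective p) {k : ℕ} {t : ℝ} (h0 : 0 < t)
    (h1 : t < 1) (h : xi p t = 1 / ((k : ℝ) + 1 / 3)) :
    (g p t).2.1 = (1 + (-1) ^ k / 2) / 2 := by
  have hk := memK hp h0 h1
  have hpos : (0 : ℝ) < (k : ℝ) + 1 / 3 := by positivity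
  have hF : xi p t * eta p t = F (xi p t) := hk.1.2.2.2.2.1
  have hx : xi p t ≠ 0 := by rw [h]; positivity
  have he : eta p t = (1 + (-1) ^ k / 2) / 2 := by
    have h2 := mul_left_cancel₀ hx (hF.trans rfl)
    rw [h2, h]
    have e1 : Real.pi / (1 / ((k : ℝ) + 1 / 3)) = Real.pi / 3 + k * Real.pi := by
      field_simp
      ring
    rw [e1, Real.cos_add_nat_mul_pi, Real.cos_pi_div_three]
    ring
  have hne : ¬ (eta p t = 0 ∨ eta p t = 1) := by
    rw [he]
    rcases neg_one_pow_eq_or ℝ k with h | h <;> rw [h] <;> norm_num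
  have hz : (g p t).2.2 = 0 := by
    rcases hk.2.2.1 with h | h
    · rcases hk.2.2.2 with h' | h'
      · exact le_antisymm h h'
      · exact absurd (Or.inr h'.1) hne
    · exact absurd h hne
  rw [← he]
  unfold eta
  rw [hz]; simp

/-- every point of the unit interval is in a part of the subdivision -/
lemma cover {n : ℕ} (t : Fin (n + 1) → unitInterval) (h0 : t 0 = 0) (h1 : t (Fin.last n) = 1)
    (s : unitInterval) : ∃ i : Fin n, s ∈ Icc (t i.castSucc) (t i.succ) := by
  by_contra hcon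
  push Not at hcon
  have key : ∀ k : ℕ, ∀ hk : k < n + 1, (k = 0 ∨ t ⟨k, hk⟩ < s) ∧ t ⟨k, hk⟩ ≤ s := by
    intro k
    induction k with
    | zero =>
      intro hk
      refine ⟨Or.inl rfl, ?_⟩
      have : (⟨0, hk⟩ : Fin (n + 1)) = 0 := rfl
      rw [this, h0]; exact s.2.1
    | succ k ih =>
      intro hk
      have hk' : k < n := by omega
      have h2 := (ih (by omega)).2
      have h3 := hcon ⟨k, hk'⟩
      rw [mem_Icc, not_and_or] at h3
      have h4 : t ⟨k + 1, hk⟩ < s := by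
        rcases h3 with h | h
        · exact absurd h2 h
        · exact not_le.1 h
      exact ⟨Or.inr h4, h4.le⟩
  have h5 := key n (by omega)
  have e : (⟨n, by omega⟩ : Fin (n + 1)) = Fin.last n := rfl
  rw [e, h1] at h5
  rcases h5.1 with h | h
  · subst h
    have : (0 : unitInterval) = 1 := by rw [← h0, ← h1]; rfl
    exact absurd this (by norm_num)
  · exact absurd h (not_lt.2 s.2.2)

theorem long {p : Path cPt bPt} (hp : Function.Injective p) {j : ℕ} (hj : 1 ≤ j)
    (hm : mid j hj ∈ range p) {n : ℕ} (t : Fin (n + 1) → unitInterval) (h0 : t 0 = 0)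
    (h1 : t (Fin.last n) = 1)
    (hd : ∀ i : Fin n, Metric.diam (⇑p '' Set.Icc (t i.castSucc) (t i.succ)) ≤ 1 / 4) :
    2 ^ j - 2 ≤ n := by
  obtain ⟨τ, hτ⟩ := hm
  have h2 : (2 : ℝ) ≤ 2 ^ j := by
    calc (2 : ℝ) = 2 ^ 1 := by norm_num
      _ ≤ 2 ^ j := pow_le_pow_right₀ (by norm_num) hj
  have hgτ : g p τ = Phi (Ek (2 ^ j + 3 / 2)) := by rw [g_coe, hτ]; rfl
  rw [Phi_Ek] at hgτ
  have hτ0 : (0 : ℝ) < τ := by
    refine lt_of_le_of_ne τ.2.1 fun h => ?_
    have : τ = 0 := Subtype.ext h.symm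
    rw [this, p.source] at hτ
    have h3 := congrArg (fun v : X => v.1.2.2) hτ
    simp only [cPt, mid, pt, Phi_Ek] at h3
    norm_num at h3
  have hτ1 : (τ : ℝ) < 1 := by
    refine lt_of_le_of_ne τ.2.2 fun h => ?_
    have : τ = 1 := Subtype.ext h
    rw [this, p.target] at hτ
    have h3 := congrArg (fun v : X => v.1.2.2) hτ
    simp only [bPt, mid, pt, Phi_Ek] at h3
    norm_num at h3
  have hxiτ : xi p τ = 1 / (2 ^ j + 3 / 2) := by
    unfold xi; rw [hgτ]; simp
  obtain ⟨t₁, ht1, ht2, ht3⟩ := last hp hj hτ0 hτ1 hxiτ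
  have ht0 : 0 < t₁ := hτ0.trans ht1
  -- the times
  have htime : ∀ k : Fin (2 ^ j - 2), ∃ s : unitInterval, 0 < (s : ℝ) ∧ (s : ℝ) < 1 ∧
      xi p s = 1 / (((2 ^ j + 2 + (k : ℕ) : ℕ) : ℝ) + 1 / 3) := by
    intro k
    have hk : (k : ℕ) + 2 < 2 ^ j := by omega
    have hk' : ((k : ℕ) : ℝ) + 3 ≤ 2 ^ j := by
      have : (k : ℕ) + 3 ≤ 2 ^ j := hk
      exact_mod_cast this
    have hps : (2 : ℝ) ^ (j + 1) = 2 * 2 ^ j := by rw [pow_succ]; ring
    have hk0 : (0 : ℝ) ≤ ((k : ℕ) : ℝ) := Nat.cast_nonneg _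
    obtain ⟨s, hs, hse⟩ := ivt hp hτ0 hτ1 ht0 ht2
      (c := 1 / (((2 ^ j + 2 + (k : ℕ) : ℕ) : ℝ) + 1 / 3)) (by
        rw [mem_uIcc, ht3, hxiτ]
        right
        push_cast
        constructor
        · apply one_div_le_one_div_of_le <;> linarith
        · apply one_div_le_one_div_of_le <;> linarith)
    obtain ⟨hs0, hs1⟩ := ioo_of_uIcc hτ0 hτ1 ht0 ht2 hs
    exact ⟨⟨s, hs0.le, hs1.le⟩, hs0, hs1, hse⟩
  choose s hs0 hs1 hs using htime
  have hcov : ∀ k, ∃ i : Fin n, s k ∈ Icc (t i.castSucc) (t i.succ) := fun k => cover t h0 h1 _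
  choose i hi using hcov
  -- distinct parts
  have hne : ∀ k k' : Fin (2 ^ j - 2), k < k' → i k ≠ i k' := by
    intro k k' hkk' heq
    have hk1 := hi k
    have hk2 := hi k'
    rw [← heq] at hk2
    have hlt : (k : ℕ) + 1 ≤ k' := hkk'
    have hltr : ((k : ℕ) : ℝ) + 1 ≤ ((k' : ℕ) : ℝ) := by exact_mod_cast hlt
    have hk0 : (0 : ℝ) ≤ ((k : ℕ) : ℝ) := Nat.cast_nonneg _
    obtain ⟨r, hr, hre⟩ := ivt hp (hs0 k) (hs1 k) (hs0 k') (hs1 k')
      (c := 1 / (((2 ^ j + 2 + (k : ℕ) + 1 : ℕ) : ℝ) + 1 / 3)) (by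
        rw [mem_uIcc, hs k, hs k']
        right
        push_cast
        constructor
        · apply one_div_le_one_div_of_le
          · positivity
          · linarith
        · apply one_div_le_one_div_of_le
          · positivity
          · linarith)
    obtain ⟨hr0, hr1⟩ := ioo_of_uIcc (hs0 k) (hs1 k) (hs0 k') (hs1 k') hr
    have y1 := at_third hp (hs0 k) (hs1 k) (hs k)
    have y2 := at_third hp hr0 hr1 hre
    -- the point r is in the part
    have hrI : (⟨r, hr0.le, hr1.le⟩ : unitInterval) ∈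
        Icc (t (i k).castSucc) (t (i k).succ) := by
      rw [mem_uIcc] at hr
      constructor
      · rcases hr with h | h
        · exact le_trans hk1.1 (show (s k : ℝ) ≤ r from h.1)
        · exact le_trans hk2.1 (show (s k' : ℝ) ≤ r from h.1)
      · rcases hr with h | h
        · exact le_trans (show r ≤ (s k' : ℝ) from h.2) hk2.2
        · exact le_trans (show r ≤ (s k : ℝ) from h.2) hk1.2
    have hdist : dist (p (s k)) (p ⟨r, hr0.le, hr1.le⟩) ≤ 1 / 4 := by
      refine le_trans ?_ (hd (i k))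
      apply Metric.dist_le_diam_of_mem (isCompact_univ.isBounded.subset (subset_univ _))
      · exact mem_image_of_mem _ hk1
      · exact mem_image_of_mem _ hrI
    have hd2 : |(g p (s k)).2.1 - (g p r).2.1| ≤ 1 / 4 := by
      refine le_trans ?_ hdist
      have e1 : g p (s k) = (p (s k)).1 := g_coe p _
      have e2 : g p r = (p ⟨r, hr0.le, hr1.le⟩).1 := g_coe p ⟨r, hr0.le, hr1.le⟩
      rw [e1, e2]
      have : dist (p (s k)) (p ⟨r, hr0.le, hr1.le⟩)
        = dist (p (s k)).1 (p ⟨r, hr0.le, hr1.le⟩).1 := rfl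
      rw [this, Prod.dist_eq, Prod.dist_eq]
      exact le_max_of_le_right (le_max_left _ _)
    rw [y1, y2, pow_succ] at hd2
    rcases neg_one_pow_eq_or ℝ (2 ^ j + 2 + (k : ℕ)) with h | h
    · rw [h] at hd2; norm_num at hd2
    · rw [h] at hd2; norm_num at hd2
  have hinj : Function.Injective i := by
    intro k k' h
    rcases lt_trichotomy k k' with hlt | heq | hgt
    · exact absurd h (hne k k' hlt)
    · exact heq
    · exact absurd h.symm (hne k' k hgt)
  have := Fintype.card_le_of_injective i hinj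
  simpa using this

end Pool.Agent.N724.UP
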