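import Pool.Agent.N724.UPDefs

set_option autoImplicit false

/-!
# A uniformly pathwise connected continuum: uniform families of paths
-/

namespace Pool.Agent.N724.UP

open Set Metric Filter Topology

lemma trans_aux {C : ℝ} {u v w : X} (h1 : R C u v) (h2 : R C v w) :
    ∃ p : Path u w, (∀ s t : unitInterval, dist (p s) (p t) ≤ 2 * C * |(s : ℝ) - t|) ∧
      v ∈ range p := by
  obtain ⟨p, hp⟩ := h1
  obtain ⟨q, hq⟩ := h2
  refine ⟨p.trans q, ?_, ?_⟩
  · have key : ∀ s t : unitInterval, (s : ℝ) ≤ t →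
        dist ((p.trans q) s) ((p.trans q) t) ≤ 2 * C * |(s : ℝ) - t| := by
      intro s t hst
      rw [Path.trans_apply, Path.trans_apply]
      by_cases ht : (t : ℝ) ≤ 1 / 2
      · have hs : (s : ℝ) ≤ 1 / 2 := hst.trans ht
        rw [dif_pos hs, dif_pos ht]
        refine (hp _ _).trans (le_of_eq ?_)
        simp only
        rw [show 2 * (s : ℝ) - 2 * t = 2 * ((s : ℝ) - t) by ring, abs_mul, abs_of_pos (two_pos)]
        ring
      · rw [dif_neg ht]
        by_cases hs : (s : ℝ) ≤ 1 / 2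
        · rw [dif_pos hs]
          have a1 := hp ⟨2 * s, by constructor <;> linarith [s.2.1]⟩ 1
          have a2 := hq 0 ⟨2 * t - 1, by push Not at ht; constructor <;> linarith [t.2.2]⟩
          rw [Path.target] at a1
          rw [Path.source] at a2
          refine (dist_triangle _ v _).trans ((add_le_add a1 a2).trans (le_of_eq ?_))
          push Not at ht
          simp only [Set.Icc.coe_one, Set.Icc.coe_zero]
          have e1 : |2 * (s : ℝ) - 1| = 1 - 2 * s := by
            rw [abs_of_nonpos (by linarith)]; ring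
          have e2 : |0 - (2 * (t : ℝ) - 1)| = 2 * t - 1 := by
            rw [abs_of_nonpos (by linarith)]; ring
          have e3 : |(s : ℝ) - t| = t - s := by
            rw [abs_of_nonpos (by linarith)]; ring
          rw [e1, e2, e3]; ring
        · rw [dif_neg hs]
          refine (hq _ _).trans (le_of_eq ?_)
          simp only
          rw [show 2 * (s : ℝ) - 1 - (2 * t - 1) = 2 * ((s : ℝ) - t) by ring, abs_mul,
            abs_of_pos (two_pos)]
          ring
    intro s t
    rcases le_total (s : ℝ) t with h | h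
    · exact key s t h
    · rw [dist_comm, abs_sub_comm]; exact key t s h
  · refine ⟨⟨1 / 2, by norm_num⟩, ?_⟩
    rw [Path.trans_apply, dif_pos (by norm_num)]
    have : (⟨2 * (((⟨1 / 2, by norm_num⟩ : unitInterval)) : ℝ), by norm_num⟩ : unitInterval) = 1 :=
      Subtype.ext (by norm_num)
    rw [this]; exact p.target

lemma R.trans {C : ℝ} {u v w : X} (h1 : R C u v) (h2 : R C v w) : R (2 * C) u w := by
  obtain ⟨p, hp, -⟩ := trans_aux h1 h2
  exact ⟨p, hp⟩

/-- the point with given coordinates -/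
def pt (k : E3) (hk : k ∈ K) : X := ⟨Phi k, k, hk, rfl⟩

lemma dist_E3_le {a b : E3} {D : ℝ} (h1 : |a.1 - b.1| ≤ D) (h2 : |a.2.1 - b.2.1| ≤ D)
    (h3 : |a.2.2 - b.2.2| ≤ D) : dist a b ≤ D := by
  rw [Prod.dist_eq, Prod.dist_eq]
  exact max_le h1 (max_le h2 h3)

/-- along a whisker -/
lemma whisker (x y z : ℝ) (hk : (x, y, z) ∈ K) (hy : y = 0 ∨ y = 1) :
    R 2 (pt (x, y, z) hk) cPt := by
  have hz : |z| ≤ 1 := hk.2.1
  have hz' := abs_le.1 hz
  have hmem : ∀ s ∈ Icc (0 : ℝ) 1, (x, y, z + s * (1 - z)) ∈ K := by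
    intro s hs
    have h1 : z ≤ z + s * (1 - z) := by nlinarith [hs.1, hz'.2]
    have h2 : z + s * (1 - z) ≤ 1 := by nlinarith [hs.2, hz'.2]
    refine ⟨hk.1, ?_, Or.inr hy, ?_⟩
    · exact abs_le.2 ⟨by linarith [hz'.1], h2⟩
    · rcases hk.2.2.2 with h | h
      · exact Or.inl (by simp only at h ⊢; linarith)
      · exact Or.inr h
  refine R_of_fun (fun s => Phi (x, y, z + s * (1 - z))) ?_ (fun s hs => ⟨_, hmem s hs, rfl⟩) ?_ ?_
  · intro s _ t _
    have hx0 : |x| ≤ 1 := abs_le.2 ⟨by linarith [hk.1.1], hk.1.2.1⟩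
    have hy0 : |y| ≤ 1 := abs_le.2 ⟨by linarith [hk.1.2.2.1], hk.1.2.2.2.1⟩
    have h3 : |z + s * (1 - z) - (z + t * (1 - z))| ≤ 2 * |s - t| := by
      rw [show z + s * (1 - z) - (z + t * (1 - z)) = (1 - z) * (s - t) by ring, abs_mul]
      exact mul_le_mul_of_nonneg_right (abs_le.2 ⟨by linarith, by linarith⟩) (abs_nonneg _)
    have h4 : abs (abs (z + s * (1 - z)) - abs (z + t * (1 - z))) ≤ 2 * |s - t| :=
      (abs_abs_sub_abs_le _ _).trans h3
    have h5 : ∀ w : ℝ, |w| ≤ 1 →
        abs ((1 - abs (z + s * (1 - z))) * w - (1 - abs (z + t * (1 - z))) * w)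
          ≤ 2 * |s - t| := by
      intro w hw
      rw [show (1 - abs (z + s * (1 - z))) * w - (1 - abs (z + t * (1 - z))) * w
        = -((abs (z + s * (1 - z)) - abs (z + t * (1 - z))) * w) by ring, abs_neg, abs_mul]
      calc abs (abs (z + s * (1 - z)) - abs (z + t * (1 - z))) * abs w ≤ (2 * |s - t|) * 1 :=
            mul_le_mul h4 hw (abs_nonneg _) (by positivity)
        _ = _ := mul_one _
    exact dist_E3_le (h5 x hx0) (h5 y hy0) h3
  · simp [pt]
  · simp [Phi, cPt]

lemma cos_lip (a b : ℝ) : |Real.cos a - Real.cos b| ≤ |a - b| := by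
  have := Real.cos_sub_cos a b
  rw [this]
  have h1 : |Real.sin ((a + b) / 2)| ≤ 1 := Real.abs_sin_le_one _
  have h2 : |Real.sin ((a - b) / 2)| ≤ |(a - b) / 2| := Real.abs_sin_le_abs
  rw [abs_mul, abs_mul]
  have h3 : |(-2 : ℝ)| = 2 := by norm_num
  rw [h3]
  have h4 : |(a - b) / 2| = |a - b| / 2 := by rw [abs_div]; norm_num
  rw [h4] at h2
  nlinarith [abs_nonneg (Real.sin ((a + b) / 2)), abs_nonneg (Real.sin ((a - b) / 2)),
    mul_le_mul h1 h2 (abs_nonneg _) (by norm_num : (0 : ℝ) ≤ 1)]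

/-- the point of the zigzag with parameter `u` -/
noncomputable def Ek (u : ℝ) : E3 := (1 / u, (1 + Real.cos (Real.pi * u)) / 2, 0)

lemma Ek_mem {u : ℝ} (hu : 1 ≤ u) (h : ∀ j : ℕ, ¬ ((2 : ℝ) ^ j < u ∧ u < 2 ^ j + 1)) :
    Ek u ∈ K := by
  have hu0 : 0 < u := by linarith
  have h1 := Real.cos_le_one (Real.pi * u)
  have h2 := Real.neg_one_le_cos (Real.pi * u)
  refine ⟨⟨?_, ?_, ?_, ?_, ?_, ?_⟩, ?_, Or.inl le_rfl, Or.inl le_rfl⟩
  · simp only [Ek]; positivity
  · simp only [Ek]; rw [div_le_one hu0]; exact hu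
  · simp only [Ek]; linarith
  · simp only [Ek]; linarith
  · simp only [Ek, F]
    rw [div_div_eq_mul_div, div_one]
  · intro j
    simp only [Ek]
    rintro ⟨a1, a2⟩
    apply h j
    rw [div_lt_div_iff₀ (by positivity) hu0] at a1
    rw [div_lt_div_iff₀ hu0 (by positivity)] at a2
    constructor <;> linarith
  · simp [Ek]

lemma Phi_Ek (u : ℝ) : Phi (Ek u) = (1 / u, (1 + Real.cos (Real.pi * u)) / 2, 0) := by
  simp [Phi, Ek]

/-- along the zigzag -/
lemma strand (u v : ℝ) (hu : 1 ≤ u) (hv : 1 ≤ v) (huv : |u - v| ≤ 1)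
    (h : ∀ s ∈ Icc (0 : ℝ) 1, Ek (u + s * (v - u)) ∈ K) (hku : Ek u ∈ K) (hkv : Ek v ∈ K) :
    R 2 (pt (Ek u) hku) (pt (Ek v) hkv) := by
  refine R_of_fun (fun s => Phi (Ek (u + s * (v - u)))) ?_ (fun s hs => ⟨_, h s hs, rfl⟩) ?_ ?_
  · intro s hs t ht
    have hst : |u + s * (v - u) - (u + t * (v - u))| ≤ |s - t| := by
      rw [show u + s * (v - u) - (u + t * (v - u)) = (v - u) * (s - t) by ring, abs_mul]
      rw [abs_sub_comm] at huv
      calc |v - u| * |s - t| ≤ 1 * |s - t| := mul_le_mul_of_nonneg_right huv (abs_nonneg _)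
        _ = _ := one_mul _
    have hge : ∀ s ∈ Icc (0 : ℝ) 1, 1 ≤ u + s * (v - u) := by
      intro s hs
      nlinarith [hs.1, hs.2]
    have g1 := hge s hs
    have g2 := hge t ht
    rw [Phi_Ek, Phi_Ek]
    generalize u + s * (v - u) = a at *
    generalize u + t * (v - u) = b at *
    apply dist_E3_le
    · simp only
      rw [div_sub_div _ _ (by linarith) (by linarith), abs_div]
      rw [div_le_iff₀ (abs_pos.2 (by positivity))]
      have e1 : |1 * b - a * 1| = |a - b| := by rw [abs_sub_comm]; ring_nf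
      rw [e1]
      have e2 : 1 ≤ |a * b| := by
        rw [abs_of_pos (by positivity)]
        nlinarith
      nlinarith [abs_nonneg (a - b), abs_nonneg (s - t)]
    · simp only
      rw [show (1 + Real.cos (Real.pi * a)) / 2 - (1 + Real.cos (Real.pi * b)) / 2
        = (Real.cos (Real.pi * a) - Real.cos (Real.pi * b)) / 2 by ring, abs_div]
      have e1 := cos_lip (Real.pi * a) (Real.pi * b)
      rw [← mul_sub, abs_mul, abs_of_pos Real.pi_pos] at e1
      have e3 : |(2 : ℝ)| = 2 := by norm_num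
      rw [e3, div_le_iff₀ two_pos]
      have e2 : Real.pi ≤ 4 := Real.pi_le_four
      nlinarith [abs_nonneg (a - b), abs_nonneg (s - t), Real.pi_pos]
    · simp only [sub_self, abs_zero]; positivity
  · simp [pt]
  · simp [pt]

/-- along the limit segment -/
lemma vert (y : ℝ) (hk : ((0 : ℝ), y, (0 : ℝ)) ∈ K) (hk0 : ((0 : ℝ), (0 : ℝ), (0 : ℝ)) ∈ K) :
    R 2 (pt (0, y, 0) hk) (pt (0, 0, 0) hk0) := by
  have h0 : 0 ≤ y := hk.1.2.2.1
  have h1 : y ≤ 1 := hk.1.2.2.2.1
  refine R_of_fun (fun s => Phi (0, (1 - s) * y, 0)) ?_ ?_ ?_ ?_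
  · intro s _ t _
    apply dist_E3_le
    · simp [Phi]
    · simp only [Phi, abs_zero, sub_zero, one_mul]
      rw [show (1 - s) * y - (1 - t) * y = -(y * (s - t)) by ring, abs_neg, abs_mul,
        abs_of_nonneg h0]
      nlinarith [abs_nonneg (s - t)]
    · simp [Phi]
  · intro s hs
    refine ⟨_, ⟨⟨le_rfl, by norm_num, ?_, ?_, ?_, ?_⟩, by simp, Or.inl le_rfl, Or.inl le_rfl⟩, rfl⟩
    · exact mul_nonneg (by linarith [hs.2]) h0
    · simp only; nlinarith [hs.1, hs.2]
    · simp [F_zero]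
    · exact hk.1.2.2.2.2.2
  · simp [pt]
  · simp [pt]

lemma zero_mem_K {y : ℝ} (h0 : 0 ≤ y) (h1 : y ≤ 1) : ((0 : ℝ), y, (0 : ℝ)) ∈ K := by
  refine ⟨⟨le_rfl, by norm_num, h0, h1, by simp [F_zero], ?_⟩, by simp, Or.inl le_rfl,
    Or.inl le_rfl⟩
  rintro j ⟨h, -⟩
  simp only at h
  have : (0 : ℝ) < 1 / ((2 : ℝ) ^ j + 1) := by positivity
  linarith

lemma R.up {u v : X} (h : R 2 u v) : R 4 u v := h.mono (by norm_num)

/-- every point is joined to the upper vertex by a short path -/
lemma to_c (a : X) : R 4 a cPt := by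
  obtain ⟨v, k, hk, rfl⟩ := a
  obtain ⟨x, y, z⟩ := k
  change R 4 (pt (x, y, z) hk) cPt
  by_cases hy : y = 0 ∨ y = 1
  · exact (whisker x y z hk hy).up
  · have hz : z = 0 := by
      rcases hk.2.2.1 with h | h
      · rcases hk.2.2.2 with h' | h'
        · exact le_antisymm h h'
        · exact absurd (Or.inr h'.1) hy
      · exact absurd h hy
    subst hz
    by_cases hx : x = 0
    · subst hx
      have h0 := zero_mem_K (y := 0) le_rfl (by norm_num)
      have h1 := vert y hk h0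
      have h2 := whisker 0 0 0 h0 (Or.inl rfl)
      have h3 := h1.trans h2
      exact h3.mono (by norm_num)
    · have hx0 : 0 < x := lt_of_le_of_ne hk.1.1 (Ne.symm hx)
      have hx1 : x ≤ 1 := hk.1.2.1
      set u : ℝ := 1 / x with hu
      have hu1 : 1 ≤ u := by rw [hu, le_div_iff₀ hx0]; linarith
      have hxu : x = 1 / u := by rw [hu, one_div_one_div]
      have hyu : y = (1 + Real.cos (Real.pi * u)) / 2 := by
        have h := hk.1.2.2.2.2.1
        simp only [F] at h
        have h' := mul_left_cancel₀ hx0.ne' h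
        rw [h', hu, mul_one_div]
      have hku : Ek u ∈ K := by
        have : Ek u = (x, y, 0) := by rw [Ek, ← hyu, ← hxu]
        rw [this]; exact hk
      have hpt : pt (x, y, 0) hk = pt (Ek u) hku := by
        apply Subtype.ext
        show Phi (x, y, 0) = Phi (Ek u)
        have : Ek u = (x, y, 0) := by rw [Ek, ← hyu, ← hxu]
        rw [this]
      set m : ℕ := ⌊u⌋₊ with hm
      have hm1 : (m : ℝ) ≤ u := Nat.floor_le (by linarith)
      have hm2 : u < m + 1 := Nat.lt_floor_add_one u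
      have hmpos : 1 ≤ m := by
        rw [hm]; exact Nat.le_floor (by exact_mod_cast hu1)
      have hmpos' : (1 : ℝ) ≤ m := by exact_mod_cast hmpos
      have hcosm : Real.cos (Real.pi * m) = (-1) ^ m := by
        rw [mul_comm]; exact Real.cos_nat_mul_pi m
      have hne : (m : ℝ) ≠ u := by
        intro h
        apply hy
        rw [hyu, ← h, hcosm]
        rcases neg_one_pow_eq_or ℝ m with h | h <;> rw [h] <;> norm_num
      have hlt : (m : ℝ) < u := lt_of_le_of_ne hm1 hne
      have hgap : ∀ v : ℝ, (m : ℝ) ≤ v → v ≤ u → ∀ j : ℕ, ¬ ((2 : ℝ) ^ j < v ∧ v < 2 ^ j + 1) := by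
        rintro v hv1 hv2 j ⟨h1, h2⟩
        have e1 : (2 ^ j : ℕ) < m + 1 := by
          have : (2 : ℝ) ^ j < m + 1 := by linarith
          exact_mod_cast this
        have e2 : m < 2 ^ j + 1 := by
          have : (m : ℝ) < 2 ^ j + 1 := by linarith
          exact_mod_cast this
        have e3 : m = 2 ^ j := by omega
        have e4 : (m : ℝ) = 2 ^ j := by exact_mod_cast e3
        apply hk.1.2.2.2.2.2 j
        simp only
        rw [hxu]
        constructor
        · rw [div_lt_div_iff₀ (by positivity) (by linarith)]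
          linarith
        · rw [div_lt_div_iff₀ (by linarith) (by positivity)]
          linarith
      have hkm : Ek m ∈ K := Ek_mem hmpos' (hgap m le_rfl hm1)
      have h1 := strand u m hu1 hmpos' (abs_le.2 ⟨by linarith, by linarith⟩) (by
        intro s hs
        refine Ek_mem ?_ (hgap _ ?_ ?_) <;> nlinarith [hs.1, hs.2]) hku hkm
      have h2 := whisker (1 / (m : ℝ)) ((1 + Real.cos (Real.pi * m)) / 2) 0 hkm (by
        rw [hcosm]
        rcases neg_one_pow_eq_or ℝ m with h | h <;> rw [h] <;> norm_num)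
      have h3 : R 2 (pt (Ek m) hkm) cPt := h2
      rw [hpt]
      exact (h1.trans h3).mono (by norm_num)

lemma through (a b p : X) : ∃ γ : Path a b,
    (∀ s t : unitInterval, dist (γ s) (γ t) ≤ 16 * |(s : ℝ) - t|) ∧ p ∈ range γ := by
  have h1 : R 8 a p := ((to_c a).trans (to_c p).symm).mono (by norm_num)
  have h2 : R 8 p b := ((to_c p).trans (to_c b).symm).mono (by norm_num)
  obtain ⟨γ, h, h'⟩ := trans_aux h1 h2
  exact ⟨γ, fun s t => (h s t).trans (le_of_eq (by ring)), h'⟩

instance : ConnectedSpace X := by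
  have : PathConnectedSpace X := by
    refine ⟨⟨cPt⟩, fun a b => ?_⟩
    obtain ⟨γ, -, -⟩ := through a b a
    exact ⟨γ⟩
  infer_instance

theorem uniform_paths (a b : X) : ∃ P : Set (Path a b),
    (∀ ε : ℝ, ε > 0 → ∃ n : ℕ, ∀ p ∈ P, ∃ t : Fin (n + 1) → unitInterval,
        t 0 = 0 ∧ t (Fin.last n) = 1 ∧ StrictMono t ∧
        ∀ i : Fin n, Metric.diam (⇑p '' Set.Icc (t i.castSucc) (t i.succ)) ≤ ε) ∧
    (⋃ p ∈ P, Set.range ⇑p) = Set.univ := by
  refine ⟨{p | ∀ s t : unitInterval, dist (p s) (p t) ≤ 16 * |(s : ℝ) - t|}, ?_, ?_⟩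
  · intro ε hε
    obtain ⟨N, hN⟩ := exists_nat_gt (16 / ε)
    have hN0 : (0 : ℝ) < N := lt_trans (by positivity) hN
    refine ⟨N, fun p hp => ?_⟩
    have hmem : ∀ i : Fin (N + 1), ((i : ℕ) : ℝ) / N ∈ Icc (0 : ℝ) 1 := by
      intro i
      constructor
      · positivity
      · rw [div_le_one hN0]
        have : (i : ℕ) ≤ N := Nat.lt_succ_iff.1 i.2
        exact_mod_cast this
    refine ⟨fun i => ⟨((i : ℕ) : ℝ) / N, hmem i⟩, ?_, ?_, ?_, ?_⟩
    · exact Subtype.ext (by simp)
    · exact Subtype.ext (by simp [hN0.ne'])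
    · intro i j hij
      rw [Subtype.mk_lt_mk]
      have : (i : ℕ) < j := hij
      have : ((i : ℕ) : ℝ) < (j : ℕ) := by exact_mod_cast this
      exact div_lt_div_of_pos_right this hN0
    · intro i
      apply Metric.diam_le_of_forall_dist_le hε.le
      rintro _ ⟨s, hs, rfl⟩ _ ⟨t, ht, rfl⟩
      refine (hp s t).trans ?_
      have a1 : ((i : ℕ) : ℝ) / N ≤ s := by
        have := hs.1
        rw [← Subtype.coe_le_coe] at this
        simpa using this
      have a2 : (s : ℝ) ≤ ((i : ℕ) + 1 : ℝ) / N := by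
        have := hs.2
        rw [← Subtype.coe_le_coe] at this
        simpa using this
      have b1 : ((i : ℕ) : ℝ) / N ≤ t := by
        have := ht.1
        rw [← Subtype.coe_le_coe] at this
        simpa using this
      have b2 : (t : ℝ) ≤ ((i : ℕ) + 1 : ℝ) / N := by
        have := ht.2
        rw [← Subtype.coe_le_coe] at this
        simpa using this
      have e : ((i : ℕ) + 1 : ℝ) / N = ((i : ℕ) : ℝ) / N + 1 / N := by ring
      rw [e] at a2 b2
      have h3 : |(s : ℝ) - t| ≤ 1 / N := abs_le.2 ⟨by linarith, by linarith⟩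
      have h4 : 16 * (1 / (N : ℝ)) ≤ ε := by
        rw [div_lt_iff₀ hε] at hN
        rw [mul_one_div, div_le_iff₀ hN0]
        linarith
      linarith
  · rw [Set.eq_univ_iff_forall]
    intro x
    obtain ⟨γ, h, h'⟩ := through a b x
    rw [mem_iUnion₂]
    exact ⟨γ, h, h'⟩

end Pool.Agent.N724.UP
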